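import Pool.Agent.W8.LS.Stm

/-! Project LS (helper8): `lam` is a Lagrangian immersion at the branch points. -/

open scoped Topology ContDiff
open Complex (I)
open Pool.Agent.W8.LS

namespace Pool.Agent.W850.LS

noncomputable section

theorem key (hF : Facts) (U : ℂ → ℂ) (hU1 : ∀ᶠ w in 𝓝 (1 : ℂ), ContDiffAt ℂ ∞ U w)
    (hU0 : U 1 = 0) (hd : deriv U 1 ≠ 0) (F : ℝ × ℂ → M) (s δ c₀ : ℝ) (ε : ℂ) (hε : ε * ε = 1)
    (k l m r : ℤ)
    (H : ∀ᶠ w in 𝓝 (1 : ℂ), ∀ s' : ℝ, ∃ z : ℂ, z ^ 2 / 2 = U w ∧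
      F (s', ε * w) = pt (site k l m r (s' + δ, c₀, z, 0)) (some 0)) :
    LagPt F (s, ε) {0} := by
  obtain ⟨hEq, hAS, hSR, hPt, hActS, hSiteS, hFlip, hSC, hNS, hNSi, hSiR, hSq, hRC, hLS, hLT⟩ := hF
  have hε0 : ε ≠ 0 := by
    rintro rfl
    simp at hε
  have htend : Filter.Tendsto (fun p : ℝ × ℂ => ε * p.2) (𝓝 (s, ε)) (𝓝 (1 : ℂ)) := by
    have h : ContinuousAt (fun p : ℝ × ℂ => ε * p.2) (s, ε) :=
      continuousAt_const.mul continuousAt_snd
    have h2 := h.tendsto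
    simpa [hε] using h2
  have hsm : ∀ y : ℝ × ℂ, ContDiffAt ℂ ∞ U (ε * y.2) →
      ContDiffAt ℝ ∞ (fun p : ℝ × ℂ => ((p.1 + δ, c₀, U (ε * p.2), (0 : ℂ)) : V)) y := by
    intro y hy
    have h1 : ContDiffAt ℝ ∞ (fun p : ℝ × ℂ => U (ε * p.2)) y := by
      have h2 : ContDiffAt ℝ ∞ U (ε * y.2) := hy.restrict_scalars ℝ
      exact h2.comp y (contDiffAt_const.mul contDiffAt_snd)
    exact (contDiffAt_fst.add contDiffAt_const).prodMk
      (contDiffAt_const.prodMk (h1.prodMk contDiffAt_const))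
  -- derivative
  have hUd : HasDerivAt U (deriv U 1) (ε * ε) := by
    rw [hε]
    exact ((hU1.self_of_nhds.differentiableAt (by simp))).hasDerivAt
  have h3 : HasDerivAt (fun w : ℂ => U (ε * w)) (deriv U 1 * (ε * 1)) ε :=
    HasDerivAt.comp ε hUd ((hasDerivAt_id ε).const_mul ε)
  have h4 := (h3.hasFDerivAt.restrictScalars ℝ).comp (s, ε)
    (hasFDerivAt_snd (𝕜 := ℝ) (E := ℝ) (F := ℂ) (p := (s, ε)))
  have h5 := ((hasFDerivAt_fst (𝕜 := ℝ) (E := ℝ) (F := ℂ) (p := (s, ε))).add_const δ).prodMk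
    ((hasFDerivAt_const (𝕜 := ℝ) c₀ ((s, ε) : ℝ × ℂ)).prodMk
      (h4.prodMk (hasFDerivAt_const (𝕜 := ℝ) (0 : ℂ) ((s, ε) : ℝ × ℂ))))
  have hder : ∀ a : ℝ × ℂ, fderiv ℝ (fun p : ℝ × ℂ => ((p.1 + δ, c₀, U (ε * p.2), (0 : ℂ)) : V))
      (s, ε) a = (a.1, 0, a.2 * (deriv U 1 * ε), 0) := by
    intro a
    have h6 : fderiv ℝ (fun p : ℝ × ℂ => ((p.1 + δ, c₀, U (ε * p.2), (0 : ℂ)) : V)) (s, ε) = _ :=
      h5.fderiv
    rw [h6]
    simp
  refine ⟨Idx.A k l m r (s + δ) c₀, fun p => (p.1 + δ, c₀, U (ε * p.2), 0), ?_, ?_, ?_, ?_, ?_⟩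
  · simp [dom, UA, hε, hU0]
  · filter_upwards [htend.eventually hU1] with y hy
    exact hsm y hy
  · filter_upwards [htend.eventually H] with y hy
    obtain ⟨z, hz, hFz⟩ := hy y.1
    have e1 : (y.1, ε * (ε * y.2)) = y := by
      rw [← mul_assoc, hε, one_mul]
    rw [e1] at hFz
    rw [hFz]
    simp only [ch, chA, ← hz, zero_mul]
    rcases hSq.2.2.2.2.2 z with h | h
    · rw [h]
    · rw [h, hPt]
      refine ⟨?_, fun _ => rfl⟩
      have h7 := (hFlip k l m r (y.1 + δ) c₀ z 0).1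
      simpa using h7
  · intro a b
    simp only [hder, om]
    simp
  · intro a ha
    rw [hder] at ha
    simp only [Prod.mk_eq_zero] at ha
    obtain ⟨h1, -, h2, -⟩ := ha
    have h3 : a.2 = 0 := by
      rcases mul_eq_zero.1 h2 with h | h
      · exact h
      · exact absurd h (mul_ne_zero hd hε0)
    exact Set.mem_singleton_iff.2 (Prod.ext h1 h3)

theorem LamBranch_proof : LamBranch := by
  intro hLF hCB k l m r N s w hw
  obtain ⟨hF, ⟨-, -, hhf, -⟩, -, -, hlam⟩ := hLF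
  obtain ⟨U, hU1, hU0, hd, hU⟩ := hCB
  have hsheet : ∀ z : ℂ, ‖z‖ < 1 / 16 → hf z.re = 0 := by
    intro z hz
    exact hhf _ ((Complex.abs_re_le_norm z).trans (by linarith))
  rcases hw with rfl | rfl
  · refine key hF U hU1 hU0 hd _ s 0 (-(N : ℝ) / √2) 1 (by simp) k l m r ?_
    filter_upwards [hU] with w hw s'
    obtain ⟨z, h1, h2, h3⟩ := hw
    refine ⟨z, h2, ?_⟩
    simp only [one_mul, add_zero]
    rw [hlam k l m r N s' z w h1, sheet, hsheet z h3]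
    simp
  · refine key hF U hU1 hU0 hd _ s ((k : ℝ) / 2) (-(N : ℝ) / √2) (-1) (by simp) k (l - 1) m r ?_
    filter_upwards [hU] with w hw s'
    obtain ⟨z, h1, h2, h3⟩ := hw
    refine ⟨z, h2, ?_⟩
    have h4 : Complex.cosh (2 * (Real.pi : ℂ) * (z + I / 2)) = -1 * w := by
      have e : 2 * (Real.pi : ℂ) * (z + I / 2) = 2 * (Real.pi : ℂ) * z + Real.pi * I := by ring
      rw [e, Complex.cosh_add, Complex.cosh_mul_I, Complex.sinh_mul_I, Complex.cos_pi,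
        Complex.sin_pi, h1]
      ring
    rw [hlam k l m r N s' (z + I / 2) (-1 * w) h4, sheet]
    have hre : (z + I / 2).re = z.re := by simp
    rw [hre, hsheet z h3]
    congr 1
    simp only [site, Prod.mk.injEq]
    refine ⟨?_, trivial, ?_, ?_⟩
    · simp
      ring
    · push_cast
      ring
    · simp

end

end Pool.Agent.W850.LS
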